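import Pool.Agent.Run7.h968.TN.Rel

set_option autoImplicit false

/-! Piece fam of the project TN (MP_90732c_al). -/

open MeasureTheory

namespace Run7.h648.TN

open Pool.Agent.W336.CS Pool.Agent.Y111.RC Pool.Agent.Q191.TR Pool.Agent.Run7.h968.TN

lemma cyc_index {K : Type} [Group K] (t : K) (ht : Function.Injective fun k : ℤ => t ^ k) (n : ℕ) :
    (Subgroup.zpowers (t ^ n)).index = n * (Subgroup.zpowers t).index := by
  let f : Multiplicative ℤ →* K := zpowersHom K t
  have hf : Function.Injective f := by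
    intro a b hab
    exact ht hab
  let H : Subgroup (Multiplicative ℤ) := AddSubgroup.toSubgroup (AddSubgroup.zmultiples (n : ℤ))
  have h1 : H.index = n := by
    show (AddSubgroup.toSubgroup (AddSubgroup.zmultiples (n : ℤ))).index = n
    rw [AddSubgroup.index_toSubgroup, Int.index_zmultiples, Int.natAbs_natCast]
  have h2 : H.map f = Subgroup.zpowers (t ^ n) := by
    ext x
    rw [Subgroup.mem_map, Subgroup.mem_zpowers_iff]
    constructor
    · rintro ⟨m, hm, rfl⟩
      obtain ⟨k, hk⟩ := AddSubgroup.mem_zmultiples_iff.1 (show m.toAdd ∈ AddSubgroup.zmultiples (n : ℤ)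
        from hm)
      refine ⟨k, ?_⟩
      show (t ^ n) ^ k = t ^ m.toAdd
      rw [← hk, ← zpow_natCast, ← zpow_mul, smul_eq_mul, mul_comm]
    · rintro ⟨k, rfl⟩
      refine ⟨Multiplicative.ofAdd (k * n), ?_, ?_⟩
      · show k * (n : ℤ) ∈ AddSubgroup.zmultiples (n : ℤ)
        exact AddSubgroup.mem_zmultiples_iff.2 ⟨k, by rw [smul_eq_mul]⟩
      · show t ^ (k * (n : ℤ)) = (t ^ n) ^ k
        rw [← zpow_natCast, ← zpow_mul, mul_comm]
  have h3 : (⊤ : Subgroup (Multiplicative ℤ)).map f = Subgroup.zpowers t := by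
    ext x
    rw [Subgroup.mem_map, Subgroup.mem_zpowers_iff]
    constructor
    · rintro ⟨m, -, rfl⟩
      exact ⟨m.toAdd, rfl⟩
    · rintro ⟨k, rfl⟩
      exact ⟨Multiplicative.ofAdd k, trivial, rfl⟩
  have h4 : (Subgroup.zpowers (t ^ n)).relIndex (Subgroup.zpowers t) = n := by
    rw [← h2, ← h3, Subgroup.relIndex_map_map_of_injective _ _ hf, Subgroup.relIndex_top_right, h1]
  have hle : Subgroup.zpowers (t ^ n) ≤ Subgroup.zpowers t := by
    rw [Subgroup.zpowers_le]
    exact Subgroup.pow_mem _ (Subgroup.mem_zpowers t) n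
  rw [← Subgroup.relIndex_mul_index hle, h4]

lemma small {K : Type} [Group K] [Infinite K] (h : ∀ δ : ℝ, 0 < δ → ¬ RGpos K δ) (η : ℝ)
    (hη : 0 < η) : ∃ (N : Subgroup K) (T : Finset K), N.FiniteIndex ∧
      Subgroup.closure (T : Set K) = N ∧ (T.card : ℝ) ≤ η * N.index := by
  have h1 := h (η / 2) (by positivity)
  unfold RGpos at h1
  push Not at h1
  obtain ⟨N, hN, T, hT, hlt⟩ := h1
  by_cases hbig : 2 / η ≤ N.index
  · refine ⟨N, T, hN, hT, ?_⟩
    rw [div_le_iff₀ hη] at hbig
    linarith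
  · rw [not_le, lt_div_iff₀ hη] at hbig
    have hcard : (T.card : ℝ) < 2 := by linarith
    have hcard' : T.card < 2 := by exact_mod_cast hcard
    have hNinf : Infinite N := by
      by_contra hcon
      rw [not_infinite_iff_finite] at hcon
      have : Finite K := (Subgroup.finite_iff_finite_and_finiteIndex (H := N)).2 ⟨hcon, hN⟩
      exact not_finite K
    have hT0 : T.card ≠ 0 := by
      intro h0
      rw [Finset.card_eq_zero] at h0
      rw [h0, Finset.coe_empty, Subgroup.closure_empty] at hT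
      rw [← hT] at hNinf
      exact not_finite (⊥ : Subgroup K)
    obtain ⟨t, ht⟩ := Finset.card_eq_one.1 (show T.card = 1 by omega)
    rw [ht, Finset.coe_singleton, ← Subgroup.zpowers_eq_closure] at hT
    have hinj : Function.Injective fun k : ℤ => t ^ k := by
      rw [injective_zpow_iff_not_isOfFinOrder, ← infinite_zpowers, hT]
      exact Set.infinite_coe_iff.1 hNinf
    obtain ⟨n, hn⟩ := exists_nat_ge (max (1 / η) 1)
    have hn1 : 1 / η ≤ n := (le_max_left _ _).trans hn
    have hn2 : (1 : ℝ) ≤ n := (le_max_right _ _).trans hn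
    have hidx := cyc_index t hinj n
    have hN0 : (Subgroup.zpowers t).index ≠ 0 := by
      rw [hT]
      exact hN.index_ne_zero
    have hn0 : n ≠ 0 := by
      rintro rfl
      norm_num at hn2
    refine ⟨Subgroup.zpowers (t ^ n), {t ^ n}, ⟨?_⟩, ?_, ?_⟩
    · rw [hidx]
      exact mul_ne_zero hn0 hN0
    · rw [Finset.coe_singleton, ← Subgroup.zpowers_eq_closure]
    · rw [hidx, Finset.card_singleton]
      push_cast
      have h5 : (1 : ℝ) ≤ (Subgroup.zpowers t).index := by
        exact_mod_cast Nat.one_le_iff_ne_zero.2 hN0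
      rw [div_le_iff₀ hη] at hn1
      nlinarith

lemma small' {K : Type} [Group K] [Infinite K] (h : ∀ δ : ℝ, 0 < δ → ¬ RGpos K δ)
    (η : NNReal) (hη : 0 < η) : ∃ (N : Subgroup K) (T : Finset K), N.FiniteIndex ∧
      Subgroup.closure (T : Set K) = N ∧
        (T.card : ENNReal) / (N.index : ENNReal) ≤ (η : ENNReal) := by
  obtain ⟨N, T, h1, h2, h3⟩ := small h η hη
  refine ⟨N, T, h1, h2, ENNReal.div_le_of_le_mul ?_⟩
  have h4 : (T.card : NNReal) ≤ η * N.index := by exact_mod_cast h3
  exact_mod_cast h4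

theorem t_fam : P_rel → P_abs → P_fam := by
  intro hrel habs G _ _ M K₀ hK₀ hinf hRG ε hε
  classical
  obtain ⟨e, he0, hesum⟩ := ENNReal.exists_pos_sum_of_countable hε.ne' ℕ
  obtain ⟨m, hm⟩ := exists_surjective_nat M
  obtain ⟨T, hTz, hTs⟩ : ∃ T : ℕ → Finset G, T 0 = K₀ ∧ ∀ n, T (n + 1) = insert (m n : G) (T n) :=
    ⟨fun n => Nat.rec K₀ (fun n S => insert (m n : G) S) n, rfl, fun n => rfl⟩
  have hT0 : ∀ n, K₀ ⊆ T n := by
    intro n
    induction n with
    | zero => rw [hTz]
    | succ n ih => exact ih.trans (by rw [hTs]; exact Finset.subset_insert _ _)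
  have hTM : ∀ n, ((T n : Finset G) : Set G) ⊆ M := by
    intro n
    induction n with
    | zero => rw [hTz]; exact hK₀
    | succ n ih =>
      rw [hTs, Finset.coe_insert]
      exact Set.insert_subset (m n).2 ih
  have hinfT : ∀ n, (Subgroup.closure ((T n : Finset G) : Set G) : Set G).Infinite := fun n =>
    hinf.mono (Subgroup.closure_mono (Finset.coe_subset.2 (hT0 n)))
  have hInf : ∀ n, Infinite (Subgroup.closure ((T n : Finset G) : Set G)) := fun n =>
    Set.infinite_coe_iff.2 (hinfT n)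
  have hle : ∀ n, Subgroup.closure ((T n : Finset G) : Set G) ≤ Subgroup.closure (T (n + 1) : Set G) := by
    intro n
    refine Subgroup.closure_mono (Finset.coe_subset.2 ?_)
    rw [hTs]
    exact Finset.subset_insert _ _
  -- the base
  have hbase : RC (∅ : Set G) (Subgroup.closure (T 0 : Set G) : Set G) (1 + (e 0 : ENNReal)) := by
    haveI := hInf 0
    obtain ⟨N, S, h1, h2, h3⟩ := small' (hRG (T 0) (hT0 0) (hTM 0)) (e 0) (he0 0)
    exact (habs G _ N S h1 h2).mono (by gcongr)
  have hstep : ∀ i, RC (Subgroup.closure (T i : Set G) : Set G)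
      (Subgroup.closure (T (i + 1) : Set G) : Set G) (e (i + 1) : ENNReal) := by
    intro i
    haveI := hInf (i + 1)
    have he2 : 0 < e (i + 1) / 2 := half_pos (he0 (i + 1))
    obtain ⟨N, S, h1, h2, h3⟩ := small' (hRG (T (i + 1)) (hT0 (i + 1)) (hTM (i + 1)))
      (e (i + 1) / 2) he2
    refine (hrel G _ _ (hle i) (hinfT i) N S h1 h2 ((e (i + 1) / 2 : NNReal) : ENNReal)
      (by exact_mod_cast he2)).mono ?_
    calc (S.card : ENNReal) / (N.index : ENNReal) + ((e (i + 1) / 2 : NNReal) : ENNReal)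
        ≤ ((e (i + 1) / 2 : NNReal) : ENNReal) + ((e (i + 1) / 2 : NNReal) : ENNReal) := by gcongr
      _ = (e (i + 1) : ENNReal) := by
        rw [← ENNReal.coe_add, add_halves]
  have hfam := Fam.seq (F := fun i => (Subgroup.closure (T i : Set G) : Set G)) hbase hstep
  refine (hfam.gen ?_).mono ?_
  · intro g hg
    obtain ⟨i, hi⟩ := hm ⟨g, hg⟩
    refine Subgroup.subset_closure (Or.inr (Set.mem_iUnion.2 ⟨i + 1, ?_⟩))
    refine Subgroup.subset_closure ?_
    rw [hTs, Finset.coe_insert]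
    exact Or.inl (by rw [hi])
  · have h5 : ∑' i, (e i : ENNReal) = (e 0 : ENNReal) + ∑' i, (e (i + 1) : ENNReal) :=
      tsum_eq_zero_add' ENNReal.summable
    rw [add_assoc, ← h5]
    gcongr

end Run7.h648.TN
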